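import Pool.Agent.W361.LQ.Defs

/-!
# Project LQ, part VAL: rational values of the coordinates
-/

set_option autoImplicit false

namespace Pool.Agent.W923.LQ

open Pool.Agent.W361.LQ

theorem norm_div (P Q : ℕ) (hQ : 0 < Q) :
    ‖((((P : ℝ) / (Q : ℝ) : ℝ)) : UnitAddCircle)‖ = (tr P Q : ℝ) / (Q : ℝ) := by
  have hQ' : (0 : ℝ) < Q := by exact_mod_cast hQ
  rw [UnitAddCircle.norm_eq, abs_sub_round_eq_min, Int.fract_div_natCast_eq_div_natCast_mod]
  have h1 : P % Q ≤ Q := (Nat.mod_lt _ hQ).le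
  have h2 : (1 : ℝ) - ((P % Q : ℕ) : ℝ) / (Q : ℝ) = ((Q - P % Q : ℕ) : ℝ) / (Q : ℝ) := by
    rw [Nat.cast_sub h1, sub_div, div_self hQ'.ne']
  rw [h2, min_div_div_right hQ'.le, tr, Nat.cast_min]

theorem co_val (R P Q L i : ℕ) (hQ : 0 < Q) (hL : 0 < L) :
    ((1 / 2 : ℝ) ^ i) • co ((R : ℝ) / (L : ℝ)) ((((P : ℝ) / (Q : ℝ) : ℝ)) : UnitAddCircle) =
      (((R : ℕ) : ℝ) / ((2 ^ i * L : ℕ) : ℝ), ((R * tr P Q : ℕ) : ℝ) / ((2 ^ i * L * Q : ℕ) : ℝ),
        ((R * tr (4 * P + Q) (4 * Q) : ℕ) : ℝ) / ((2 ^ i * L * (4 * Q) : ℕ) : ℝ)) := by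
  have hQ' : (0 : ℝ) < Q := by exact_mod_cast hQ
  have hL' : (0 : ℝ) < L := by exact_mod_cast hL
  have h1 := norm_div P Q hQ
  have h2 : ‖((((P : ℝ) / (Q : ℝ) : ℝ)) : UnitAddCircle) + ((1 / 4 : ℝ) : UnitAddCircle)‖ =
      (tr (4 * P + Q) (4 * Q) : ℝ) / ((4 * Q : ℕ) : ℝ) := by
    rw [← norm_div (4 * P + Q) (4 * Q) (by omega), ← AddCircle.coe_add]
    congr 2
    push_cast
    field_simp
  unfold co
  rw [h1, h2]
  simp only [Prod.smul_mk, smul_eq_mul, one_div, inv_pow]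
  refine Prod.ext ?_ (Prod.ext ?_ ?_)
  · push_cast
    field_simp
  · push_cast
    field_simp
  · push_cast
    field_simp

theorem val : ∀ (c : Cd) (i : ℕ), 0 < (q0 c i).2 ∧ 0 < (q1 c i).2 ∧ 0 < (q2 c i).2 ∧
    crd (pm c) i = (((q0 c i).1 : ℝ) / (q0 c i).2, ((q1 c i).1 : ℝ) / (q1 c i).2,
      ((q2 c i).1 : ℝ) / (q2 c i).2) := by
  intro c i
  have hL : 0 < 2 ^ c.2.1 := by positivity
  have hM : ∀ n, 0 < M n := fun n => by unfold M; positivity
  have hQ : 0 < pQ c i := by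
    unfold pQ
    split_ifs
    · positivity
    · exact Nat.mul_pos (by positivity) (hM _)
  refine ⟨?_, ?_, ?_, ?_⟩
  · unfold q0; positivity
  · unfold q1; positivity
  · unfold q2; positivity
  · have key := co_val (pR c i) (pP c i) (pQ c i) (2 ^ c.2.1) i hQ hL
    unfold q0 q1 q2
    rw [← key]
    unfold crd
    rcases Nat.eq_zero_or_pos i with rfl | hi
    · have h1 : ((pR c 0 : ℕ) : ℝ) / ((2 ^ c.2.1 : ℕ) : ℝ) = 1 := by
        have : pR c 0 = 2 ^ c.2.1 := by simp [pR]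
        rw [this]
        exact div_self (by positivity)
      have h2 : (pP c 0 : ℝ) / (pQ c 0 : ℝ) = (c.1 : ℝ) / 2 ^ c.2.1 := by
        simp [pP, pQ]
      rw [if_pos rfl, h1, h2, pow_zero, one_smul]
      rfl
    · have hi' : i ≠ 0 := hi.ne'
      rw [if_neg hi']
      have h1 : ((pR c i : ℕ) : ℝ) / ((2 ^ c.2.1 : ℕ) : ℝ) = ((pm c).2.1 (i - 1) : ℝ) := by
        have : pR c i = rho c (i - 1) := by simp [pR, hi']
        rw [this]
        show _ = (rho c (i - 1) : ℝ) / 2 ^ c.2.1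
        push_cast
        rfl
      have h2 : (((pP c i : ℝ) / (pQ c i : ℝ) : ℝ) : UnitAddCircle) = (pm c).2.2 (i - 1) := by
        show _ = ((((c.1 : ℝ) / 2 ^ c.2.1 + jj c (i - 1)) / M (i - 1) : ℝ) : UnitAddCircle)
        congr 1
        have hM' : (0 : ℝ) < M (i - 1) := by exact_mod_cast hM (i - 1)
        simp only [pP, pQ, if_neg hi']
        push_cast
        field_simp
      rw [h1, h2]

end Pool.Agent.W923.LQ
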