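import Pool.Agent.W361.LQ.Stm
import Pool.Agent.W923.LQ.Val0

/-!
# Project LQ, part VAL: rational values of the coordinates
-/

set_option autoImplicit false

namespace Pool.Agent.W923.LQ.Val

theorem main : Pool.Agent.W361.LQ.S_VAL := Pool.Agent.W923.LQ.val

end Pool.Agent.W923.LQ.Val
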